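import Pool.Agent.Helper5.ST.GoalsA

/-!
# WS: the difference of the two means is close to `b(s)`
-/

namespace Pool.Agent.Helper75.ST

open Pool.Agent.Helper5.Gap Pool.Agent.Helper5.ST Filter Topology
open scoped InnerProductSpace

universe u

variable {G : Type u} [Group G] (w : Walk G) {V : Type u} [NormedAddCommGroup V]
  [InnerProductSpace ℝ V] (π : G →* (V ≃ₗᵢ[ℝ] V))

theorem energy (v : V) :
    ∑ i, w.p i * ‖π (w.s i) v - v‖ ^ 2 = 2 * (‖v‖ ^ 2 - ⟪w.Q π v, v⟫_ℝ) := by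
  have h1 : ∀ i, w.p i * ‖π (w.s i) v - v‖ ^ 2 =
      w.p i * (2 * ‖v‖ ^ 2) - 2 * ⟪w.p i • π (w.s i) v, v⟫_ℝ := by
    intro i
    rw [norm_sub_sq_real, Walk.norm_rep, real_inner_smul_left]
    ring
  simp only [h1]
  rw [Finset.sum_sub_distrib, ← Finset.sum_mul, w.p_sum, ← Finset.mul_sum, ← sum_inner,
    ← Walk.Q_apply]
  ring

theorem tt_eq (ξ : V) (j : ℕ) : w.tt π ξ j =
    2 * (⟪((w.Q π) ^ j) ξ, ξ⟫_ℝ - ⟪((w.Q π) ^ (j + 1)) ξ, ξ⟫_ℝ) := by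
  unfold Walk.tt
  rw [Walk.mean_inner_left, Walk.mean_inner_left, Walk.mean_rep, Walk.mean_rep]

theorem inner_pow_pow (ξ : V) (a b : ℕ) :
    ⟪((w.Q π) ^ a) ξ, ((w.Q π) ^ b) ξ⟫_ℝ = ⟪((w.Q π) ^ (a + b)) ξ, ξ⟫_ℝ := by
  rw [← Walk.inner_Q_pow, ← Module.End.mul_apply, ← pow_add, add_comm b a]

theorem mean_shift (ξ : V) (n : ℕ) (i : w.I) :
    w.mean n (fun g => coc π ξ (w.s i * g)) = π (w.s i) (((w.Q π) ^ n) ξ) - ξ := by
  unfold coc
  rw [Walk.mean_sub, Walk.mean_const, ← Walk.mean_rep]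
  congr 1
  have := w.mean_map ((π (w.s i)).toLinearEquiv : V →ₗ[ℝ] V) n (fun g => π g ξ)
  simp only [LinearEquiv.coe_coe, LinearIsometryEquiv.coe_toLinearEquiv] at this
  rw [this]
  simp only [map_mul]
  rfl

theorem mean_coc (ξ : V) (n : ℕ) :
    w.mean n (coc π ξ) = ((w.Q π) ^ n) ξ - ξ := by
  rw [← Walk.mean_rep]
  have : coc π ξ = fun g => π g ξ - ξ := rfl
  rw [this, Walk.mean_sub, Walk.mean_const]

/-- The packet WS; no hypothesis is needed. -/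
theorem ws : SWs.{u} := by
  intro G _ w V _ _ π ξ τ hτ0 hτ1 hξ n
  set Q := w.Q π with hQ
  set z : V := (Q ^ n) ξ - ξ with hz
  set y : V := (Q ^ n) ξ - (Q ^ (n + 1)) ξ with hy
  -- monotonicity of `tt`
  have hanti : ∀ j k, j ≤ k → w.tt π ξ k ≤ w.tt π ξ j := by
    intro j k hjk
    exact antitone_nat_of_succ_le hξ.anti hjk
  have hlow : ∀ j, (1 - τ) ^ j ≤ w.tt π ξ j := by
    intro j
    induction j with
    | zero => rw [hξ.t0, pow_zero]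
    | succ j ih =>
      refine le_trans ?_ (hξ.slow j)
      rw [pow_succ, mul_comm]
      exact mul_le_mul_of_nonneg_left ih (by linarith)
  have hbern : 1 - n * τ ≤ (1 - τ) ^ n := by
    have := one_add_mul_le_pow (a := -τ) (by linarith) n
    have e : (1 : ℝ) + -τ = 1 - τ := by ring
    rw [e] at this
    linarith
  -- the inner products
  have hyn : ‖y‖ ^ 2 = (w.tt π ξ (2 * n) - w.tt π ξ (2 * n + 1)) / 2 := by
    rw [← real_inner_self_eq_norm_sq, hy, inner_sub_left, inner_sub_right, inner_sub_right,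
      inner_pow_pow, inner_pow_pow, inner_pow_pow, inner_pow_pow, tt_eq, tt_eq]
    rw [show n + n = 2 * n by ring, show n + (n + 1) = 2 * n + 1 by ring,
      show n + 1 + n = 2 * n + 1 by ring, show n + 1 + (n + 1) = 2 * n + 1 + 1 by ring]
    ring
  have hξp : ∀ a, ⟪ξ, (Q ^ a) ξ⟫_ℝ = ⟪(Q ^ a) ξ, ξ⟫_ℝ := fun a => real_inner_comm _ _
  have hzn : ‖z‖ ^ 2 = ⟪(Q ^ (2 * n)) ξ, ξ⟫_ℝ - 2 * ⟪(Q ^ n) ξ, ξ⟫_ℝ + ⟪ξ, ξ⟫_ℝ := by
    rw [← real_inner_self_eq_norm_sq, hz, inner_sub_left, inner_sub_right, inner_sub_right,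
      inner_pow_pow, hξp, show n + n = 2 * n by ring]
    ring
  have hQz : ⟪Q z, z⟫_ℝ = ⟪(Q ^ (2 * n + 1)) ξ, ξ⟫_ℝ - 2 * ⟪(Q ^ (n + 1)) ξ, ξ⟫_ℝ
      + ⟪(Q ^ (0 + 1)) ξ, ξ⟫_ℝ := by
    have e : Q z = (Q ^ (n + 1)) ξ - (Q ^ (0 + 1)) ξ := by
      rw [hz, map_sub, pow_succ' Q n, Module.End.mul_apply]
      simp
    rw [e, hz, inner_sub_left, inner_sub_right, inner_sub_right, inner_pow_pow, inner_pow_pow,
      show n + 1 + n = 2 * n + 1 by ring, show 0 + 1 + n = n + 1 by ring]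
    ring
  have hen : ‖z‖ ^ 2 - ⟪Q z, z⟫_ℝ =
      (w.tt π ξ (2 * n) - 2 * w.tt π ξ n + w.tt π ξ 0) / 2 := by
    rw [hzn, hQz, tt_eq, tt_eq, tt_eq]
    simp only [pow_zero, Module.End.one_apply]
    ring
  -- the vector
  have hvec : ∀ i, (w.mean n (fun g => coc π ξ (w.s i * g)) - w.mean (n + 1) (coc π ξ)) -
      coc π ξ (w.s i) = (π (w.s i) z - z) + y := by
    intro i
    rw [mean_shift, mean_coc, hz, hy, map_sub]
    unfold coc
    abel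
  have hsum : ∑ i, w.p i * ‖(w.mean n (fun g => coc π ξ (w.s i * g)) - w.mean (n + 1) (coc π ξ)) -
      coc π ξ (w.s i)‖ ^ 2 ≤ ∑ i, (2 * (w.p i * ‖π (w.s i) z - z‖ ^ 2) + w.p i * (2 * ‖y‖ ^ 2)) := by
    refine Finset.sum_le_sum fun i _ => ?_
    rw [hvec]
    have h1 : ‖(π (w.s i) z - z) + y‖ ^ 2 ≤ 2 * ‖π (w.s i) z - z‖ ^ 2 + 2 * ‖y‖ ^ 2 := by
      have h2 := norm_add_le (π (w.s i) z - z) y
      have h3 := norm_nonneg ((π (w.s i) z - z) + y)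
      nlinarith [sq_nonneg (‖π (w.s i) z - z‖ - ‖y‖)]
    have h4 := mul_le_mul_of_nonneg_left h1 (w.p_nonneg i)
    linarith
  refine hsum.trans ?_
  rw [Finset.sum_add_distrib, ← Finset.mul_sum, energy, ← Finset.sum_mul, w.p_sum, one_mul]
  rw [← hQ, hen, hyn]
  have t0 := hξ.t0
  have t1 := hanti n (2 * n) (by omega)
  have t2 := hlow n
  have t3 := hξ.slow (2 * n)
  have t4 : w.tt π ξ (2 * n) ≤ 1 := t0 ▸ hanti 0 (2 * n) (by omega)
  have t5 : τ * w.tt π ξ (2 * n) ≤ τ * 1 := mul_le_mul_of_nonneg_left t4 hτ0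
  nlinarith

end Pool.Agent.Helper75.ST
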